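import Pool.Agent.TH84.SF.Spec

/-!
# Project SF, piece (F2) (helper48): strong irreducibility and a safe symbol give filling rules
-/

set_option autoImplicit false

namespace Pool.Agent.T9h48.SF

open Pool.Agent.TH84.SF

/-- **(F2)** -/
theorem sF2 : S_F2 := by
  intro G A _ _ _ _ X hX ⟨Δ, hΔ⟩ ⟨o, ho⟩ xs hxs B
  classical
  let E : Finset G := B ∪ (B ×ˢ Δ).image fun p => p.1 * p.2
  have hBE : B ⊆ E := Finset.subset_union_left
  refine ⟨E, E, fun x g => if g ∈ B then xs g else o,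
    ⟨hBE, Finset.Subset.refl _, fun x y _ e _ => rfl, ?_, fun x b hb => if_pos hb⟩⟩
  intro x hx z h1 h2
  rw [← hX.closure_eq, mem_closure_iff]
  intro O hO hz
  obtain ⟨F, u, hu, hF⟩ := isOpen_pi_iff.1 hO z hz
  obtain ⟨z', hz', h3, h4⟩ := hΔ B (F \ E) (by
    intro w hw d hd hn
    have : w * d ∈ E := Finset.mem_union_right _
      (Finset.mem_image.2 ⟨(w, d), Finset.mem_product.2 ⟨hw, hd⟩, rfl⟩)
    exact (Finset.mem_sdiff.1 hn).2 this) xs hxs x hx
  refine ⟨fun g => if g ∈ E ∧ g ∉ B then o else z' g, hF ?_, ho z' hz' _ ?_⟩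
  · intro g hg
    have hzg : z g ∈ u g := (hu g hg).2
    have key : (if g ∈ E ∧ g ∉ B then o else z' g) = z g := by
      by_cases hE : g ∈ E
      · by_cases hB : g ∈ B
        · rw [if_neg (fun h => h.2 hB), h3 g hB, h1 g hE]
          exact (if_pos hB).symm
        · rw [if_pos ⟨hE, hB⟩, h1 g hE]
          exact (if_neg hB).symm
      · rw [if_neg (fun h => hE h.1), h2 g hE]
        exact h4 g (Finset.mem_sdiff.2 ⟨hg, hE⟩)
    show (if g ∈ E ∧ g ∉ B then o else z' g) ∈ u g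
    rw [key]
    exact hzg
  · intro g
    show (if g ∈ E ∧ g ∉ B then o else z' g) = z' g ∨ (if g ∈ E ∧ g ∉ B then o else z' g) = o
    split_ifs
    · exact Or.inr rfl
    · exact Or.inl rfl

end Pool.Agent.T9h48.SF
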